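import Pool.Agent.N226.LL.Prob
import Pool.Agent.W111.LAR.Top

/-!
# Lifts in which no point is on two short cycles
-/

set_option autoImplicit false

namespace Pool.Agent.N226.LL

open Finset Function SimpleGraph H931R3.LA Pool.Agent.W111.LAR

/-- The graph of a permutation. -/
def gph {W : Type} (τ : Equiv.Perm W) : SimpleGraph W where
  Adj p q := p ≠ q ∧ (τ p = q ∨ τ q = p)
  symm.symm := fun _ _ h => ⟨h.1.symm, h.2.symm⟩
  loopless.irrefl := fun _ h => h.1 rfl

theorem gph_deg {W : Type} [Finite W] (τ : Equiv.Perm W) (p : W) :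
    ((gph τ).neighborSet p).ncard ≤ 2 := by
  have h : (gph τ).neighborSet p ⊆ {τ p, τ.symm p} := by
    rintro q ⟨-, h | h⟩
    · exact Or.inl h.symm
    · right
      rw [Set.mem_singleton_iff, ← h, Equiv.symm_apply_apply]
  refine (Set.ncard_le_ncard h (Set.toFinite _)).trans ?_
  refine (Set.ncard_insert_le _ _).trans ?_
  rw [Set.ncard_singleton]

theorem gph_reach {W : Type} (τ : Equiv.Perm W) (p : W) (s : ℕ) :
    (gph τ).Reachable p (τ^[s] p) := by
  induction s with
  | zero => exact Reachable.refl p
  | succ s ih =>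
    refine ih.trans ?_
    rw [iterate_succ_apply']
    by_cases h : τ^[s] p = τ (τ^[s] p)
    · rw [← h]
    · exact SimpleGraph.Adj.reachable ⟨h, Or.inl rfl⟩

theorem csize_ge {W : Type} [Finite W] (τ : Equiv.Perm W) (p : W) :
    minimalPeriod τ p ≤ csize (gph τ) p := by
  unfold csize
  have h1 : (fun s => τ^[s] p) '' (Set.Iio (minimalPeriod τ p)) ⊆
      {w | (gph τ).Reachable p w} := by
    rintro _ ⟨s, -, rfl⟩
    exact gph_reach τ p s
  have h2 := Set.ncard_le_ncard h1 (Set.toFinite _)
  rw [Set.InjOn.ncard_image] at h2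
  · have h3 : (Set.Iio (minimalPeriod τ p)).ncard = minimalPeriod τ p := by
      rw [← Finset.coe_Iio, Set.ncard_coe_finset, Nat.card_Iio]
    rwa [h3] at h2
  · exact iterate_injOn_Iio_minimalPeriod

theorem csize_three {W : Type} [Finite W] {H : SimpleGraph W} {p : W} (h : Cyc H p) :
    3 ≤ csize H p := by
  unfold csize
  have h1 : insert p (H.neighborSet p) ⊆ {w | H.Reachable p w} := by
    intro w hw
    rcases hw with rfl | hw
    · exact Reachable.refl _
    · exact SimpleGraph.Adj.reachable hw
  have h2 := Set.ncard_le_ncard h1 (Set.toFinite _)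
  have hnot : p ∉ H.neighborSet p := fun hp => H.loopless.irrefl p hp
  rw [Set.ncard_insert_of_notMem hnot (Set.toFinite _), h p (Reachable.refl p)] at h2
  exact h2

/-- The covering by `k + 1` linear forests. -/
theorem cov_of_not_bad {V : Type} [Finite V] {N k : ℕ} (hk : 0 < k) (σ : Fin k → Equiv.Perm V)
    (π : Fin k → V → Equiv.Perm (Fin N)) (h : ¬ Bad σ (6 * k) π) :
    Cov (⨆ i, gph (tau (σ i) (π i))) (k + 1) := by
  classical
  have h0 := cov_of_load (fun i : Fin k => gph (tau (σ i) (π i))) (fun i v => gph_deg _ v) (by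
    intro p
    have hk' : (0 : ℝ) < k := by exact_mod_cast hk
    -- the terms of the long cycles
    have hlong : ∀ i : Fin k, 6 * k ≤ minimalPeriod (tau (σ i) (π i)) p →
        (if Cyc (gph (tau (σ i) (π i))) p then
          (2 : ℝ) / csize (gph (tau (σ i) (π i))) p else 0) ≤ 1 / (3 * k) := by
      intro i hi
      split_ifs with hc
      · have h1 : (6 * k : ℝ) ≤ csize (gph (tau (σ i) (π i))) p := by
          exact_mod_cast hi.trans (csize_ge _ p)
        rw [div_le_div_iff₀ (by linarith) (by positivity)]
        linarith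
      · positivity
    have hany : ∀ i : Fin k, (if Cyc (gph (tau (σ i) (π i))) p then
          (2 : ℝ) / csize (gph (tau (σ i) (π i))) p else 0) ≤ 2 / 3 := by
      intro i
      split_ifs with hc
      · have h1 : (3 : ℝ) ≤ csize (gph (tau (σ i) (π i))) p := by
          exact_mod_cast csize_three hc
        rw [div_le_div_iff₀ (by linarith) (by norm_num)]
        linarith
      · norm_num
    by_cases hs : ∃ i₀ : Fin k, minimalPeriod (tau (σ i₀) (π i₀)) p < 6 * k
    · obtain ⟨i₀, hi₀⟩ := hs
      have hterm : ∀ i : Fin k, (if Cyc (gph (tau (σ i) (π i))) p then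
          (2 : ℝ) / csize (gph (tau (σ i) (π i))) p else 0) ≤
          (if i = i₀ then 2 / 3 else 0) + 1 / (3 * k) := by
        intro i
        by_cases hi : i = i₀
        · rw [if_pos hi]
          have := hany i
          have h2 : (0 : ℝ) ≤ 1 / (3 * k) := by positivity
          linarith
        · rw [if_neg hi, zero_add]
          refine hlong i ?_
          by_contra hlt
          push Not at hlt
          apply h
          rcases lt_or_gt_of_ne hi with h3 | h3
          · exact ⟨i, i₀, h3, p, hlt, hi₀⟩
          · exact ⟨i₀, i, h3, p, hi₀, hlt⟩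
      refine (sum_le_sum fun i _ => hterm i).trans ?_
      rw [sum_add_distrib, sum_ite_eq' univ i₀, if_pos (mem_univ _), sum_const, card_univ,
        Fintype.card_fin, nsmul_eq_mul]
      have : (k : ℝ) * (1 / (3 * k)) = 1 / 3 := by
        field_simp
      rw [this]
      norm_num
    · push Not at hs
      refine (sum_le_sum fun i _ => hlong i (hs i)).trans ?_
      rw [sum_const, card_univ, Fintype.card_fin, nsmul_eq_mul]
      have : (k : ℝ) * (1 / (3 * k)) = 1 / 3 := by
        field_simp
      rw [this]
      norm_num)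
  rwa [Fintype.card_fin] at h0

theorem cov_sub {W : Type} [Finite W] {G G' : SimpleGraph W} {k : ℕ} (h : Cov G k)
    (hle : G' ≤ G) : Cov G' k := by
  obtain ⟨F, hF, hG⟩ := h
  refine ⟨fun i => F i ⊓ G', fun i => ⟨?_, fun v => ?_⟩, ?_⟩
  · exact (hF i).1.anti inf_le_left
  · refine (Set.ncard_le_ncard ?_ (Set.toFinite _)).trans ((hF i).2 v)
    intro w hw
    exact (inf_le_left : F i ⊓ G' ≤ F i) hw
  · rw [← iSup_inf_eq, hG]
    exact inf_eq_right.mpr hle

end Pool.Agent.N226.LL
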