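import Pool.Agent.N226.LL.Det

/-!
# Linear arboricity of almost all lifts of a multigraph of maximum degree `2 k`
-/

set_option autoImplicit false

namespace Pool.Agent.N226.LL

open Finset Function SimpleGraph H931R3.LA Pool.Agent.W111.LAR

/-- A multigraph of maximum degree at most `2 k` is contained in the union of the graphs of `k`
permutations. -/
theorem multi_decomp {V E : Type} [Fintype V] [DecidableEq V] [Fintype E] [DecidableEq E]
    (src tgt : E → V) (k : ℕ) (hdeg : ∀ v, (univ.filter (fun e => src e = v)).card +
      (univ.filter (fun e => tgt e = v)).card ≤ 2 * k) :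
    ∃ (σ : Fin k → Equiv.Perm V) (c : E → Fin k) (t : E → Bool),
      (∀ e, σ (c e) (if t e then src e else tgt e) = if t e then tgt e else src e) ∧
      Injective fun e => (c e, if t e then src e else tgt e) := by
  classical
  let dg : V → ℕ := fun v => (univ.filter (fun e => src e = v)).card +
      (univ.filter (fun e => tgt e = v)).card
  let d : V → ℕ := fun v => 2 * k - dg v
  have hsum1 : ∑ v, dg v = 2 * Fintype.card E := by
    have h1 : (univ : Finset E).card = ∑ v ∈ (univ : Finset V), (univ.filter (fun e => src e = v)).card :=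
      card_eq_sum_card_fiberwise (fun e _ => mem_univ _)
    have h2 : (univ : Finset E).card = ∑ v ∈ (univ : Finset V), (univ.filter (fun e => tgt e = v)).card :=
      card_eq_sum_card_fiberwise (fun e _ => mem_univ _)
    change ∑ v, ((univ.filter (fun e => src e = v)).card +
      (univ.filter (fun e => tgt e = v)).card) = _
    rw [sum_add_distrib, ← h1, ← h2, card_univ, two_mul]
  have hsum2 : ∑ v, d v + ∑ v, dg v = 2 * (Fintype.card V * k) := by
    rw [← sum_add_distrib]
    have : ∀ v, d v + dg v = 2 * k := fun v => by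
      have := hdeg v
      change 2 * k - dg v + dg v = 2 * k
      have h3 : dg v ≤ 2 * k := this
      omega
    simp_rw [this]
    rw [sum_const, smul_eq_mul, card_univ]
    ring
  let qn : ℕ := Fintype.card V * k - Fintype.card E
  have hqn : 2 * qn = ∑ v, d v := by
    change 2 * (Fintype.card V * k - Fintype.card E) = _
    omega
  have hcard : Fintype.card (Fin qn × Bool) = Fintype.card (Σ v : V, Fin (d v)) := by
    rw [Fintype.card_prod, Fintype.card_fin, Fintype.card_bool, Fintype.card_sigma]
    simp only [Fintype.card_fin]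
    omega
  let slot : Fin qn × Bool ≃ (Σ v : V, Fin (d v)) := Fintype.equivOfCardEq hcard
  let p : E ⊕ Fin qn → V := Sum.elim src (fun j => (slot (j, true)).1)
  let q : E ⊕ Fin qn → V := Sum.elim tgt (fun j => (slot (j, false)).1)
  have hdum : ∀ v, (univ.filter (fun j : Fin qn => (slot (j, true)).1 = v)).card +
      (univ.filter (fun j : Fin qn => (slot (j, false)).1 = v)).card = d v := by
    intro v
    have h1 : (univ.filter (fun x : Fin qn × Bool => (slot x).1 = v)).card = d v := by
      have h2 : (univ.filter (fun x : Fin qn × Bool => (slot x).1 = v)).card =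
          (univ : Finset (Fin (d v))).card := by
        symm
        refine card_bij (fun i _ => slot.symm ⟨v, i⟩) ?_ ?_ ?_
        · intro i _
          simp
        · intro i _ j _ h
          have := slot.symm.injective h
          simpa using this
        · intro x hx
          obtain ⟨_, hx⟩ := mem_filter.1 hx
          subst hx
          exact ⟨(slot x).2, mem_univ _, by simp⟩
      rw [h2, card_univ, Fintype.card_fin]
    rw [← h1]
    simp only [card_filter]
    rw [Fintype.sum_prod_type]
    rw [← sum_add_distrib]
    refine sum_congr rfl fun j _ => ?_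
    rw [Fintype.sum_bool]
  obtain ⟨t, ht1, ht2⟩ := orient p q k (by
    intro v
    have h1 : (univ.filter (fun e : E ⊕ Fin qn => p e = v)).card =
        (univ.filter (fun e => src e = v)).card +
        (univ.filter (fun j : Fin qn => (slot (j, true)).1 = v)).card := by
      simp only [card_filter]
      rw [Fintype.sum_sum_type]
      rfl
    have h2 : (univ.filter (fun e : E ⊕ Fin qn => q e = v)).card =
        (univ.filter (fun e => tgt e = v)).card +
        (univ.filter (fun j : Fin qn => (slot (j, false)).1 = v)).card := by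
      simp only [card_filter]
      rw [Fintype.sum_sum_type]
      rfl
    have h4 := hdum v
    have h5 : dg v ≤ 2 * k := hdeg v
    have h6 : d v = 2 * k - dg v := rfl
    have h7 : dg v = (univ.filter (fun e => src e = v)).card +
      (univ.filter (fun e => tgt e = v)).card := rfl
    omega)
  let l : E ⊕ Fin qn → V := fun e => if t e then p e else q e
  let r : E ⊕ Fin qn → V := fun e => if t e then q e else p e
  obtain ⟨ℓ, hℓ, hl1, hl2⟩ := konig l r k univ ht1 ht2
  -- every vertex has an outgoing edge of every colour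
  have hex : ∀ (i : Fin k) (v : V), ∃ e, ℓ e = i ∧ l e = v := by
    intro i v
    have h1 : ((univ.filter fun e => l e = v).image ℓ) = range k := by
      refine eq_of_subset_of_card_le ?_ ?_
      · intro j hj
        obtain ⟨e, -, rfl⟩ := mem_image.mp hj
        exact mem_range.mpr (hℓ e (mem_univ _))
      · rw [card_range, card_image_of_injOn]
        · exact (ht1 v).ge
        · intro e he e' he' h
          rw [mem_coe, mem_filter] at he he'
          exact hl1 e (mem_univ _) e' (mem_univ _) (he.2.trans he'.2.symm) h
    have h2 : (i : ℕ) ∈ (univ.filter fun e => l e = v).image ℓ := by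
      rw [h1]
      exact mem_range.mpr i.2
    obtain ⟨e, he, h3⟩ := mem_image.mp h2
    exact ⟨e, h3, (mem_filter.mp he).2⟩
  choose out hout1 hout2 using hex
  have hinj : ∀ i : Fin k, Injective fun v => r (out i v) := by
    intro i v v' h
    have := hl2 _ (mem_univ _) _ (mem_univ _) h ((hout1 i v).trans (hout1 i v').symm)
    rw [← hout2 i v, this, hout2 i v']
  let σ : Fin k → Equiv.Perm V := fun i =>
    Equiv.ofBijective _ (Finite.injective_iff_bijective.mp (hinj i))
  refine ⟨σ, fun e => ⟨ℓ (Sum.inl e), hℓ _ (mem_univ _)⟩, fun e => t (Sum.inl e), ?_, ?_⟩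
  · intro e
    have h1 : out ⟨ℓ (Sum.inl e), hℓ _ (mem_univ _)⟩ (l (Sum.inl e)) = Sum.inl e :=
      hl1 _ (mem_univ _) _ (mem_univ _) (hout2 _ _) (hout1 _ _)
    change r (out ⟨ℓ (Sum.inl e), hℓ _ (mem_univ _)⟩ (l (Sum.inl e))) = r (Sum.inl e)
    rw [h1]
  · intro e e' h
    rw [Prod.mk.injEq, Fin.mk.injEq] at h
    exact Sum.inl_injective (hl1 _ (mem_univ _) _ (mem_univ _) h.2 h.1)

/-- The `N`-lift of a multigraph (with loops and multiple edges ignored): the vertices are the pairs
`(v, x)`, and for every edge `e` the vertex `(src e, x)` is joined with `(tgt e, π e x)`. -/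
def lift {V E : Type} {N : ℕ} (src tgt : E → V) (π : E → Equiv.Perm (Fin N)) :
    SimpleGraph (V × Fin N) where
  Adj p q := p ≠ q ∧ ∃ e, (src e = p.1 ∧ tgt e = q.1 ∧ π e p.2 = q.2) ∨
    (src e = q.1 ∧ tgt e = p.1 ∧ π e q.2 = p.2)
  symm.symm := fun _ _ h => ⟨h.1.symm, h.2.imp fun _ he => he.symm⟩
  loopless.irrefl := fun _ h => h.1 rfl

theorem cov_empty {W : Type} [IsEmpty W] (G : SimpleGraph W) (k : ℕ) : Cov G k := by
  refine ⟨fun _ => ⊥, fun _ => ⟨?_, fun v => isEmptyElim v⟩, ?_⟩
  · intro v
    exact isEmptyElim v
  · ext v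
    exact isEmptyElim v

open Classical in
theorem count {V E : Type} [Fintype V] [Fintype E] (src tgt : E → V) (k N : ℕ) (hk : 0 < k)
    (hdeg : ∀ v, (univ.filter (fun e => src e = v)).card +
      (univ.filter (fun e => tgt e = v)).card ≤ 2 * k) :
    (univ.filter fun π : E → Equiv.Perm (Fin N) => ¬ Cov (lift src tgt π) (k + 1)).card * N ≤
      72 * k ^ 4 * Fintype.card V * Fintype.card (E → Equiv.Perm (Fin N)) := by
  rcases isEmpty_or_nonempty V with hV | hV
  · have : (univ.filter fun π : E → Equiv.Perm (Fin N) => ¬ Cov (lift src tgt π) (k + 1)) = ∅ := by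
      rw [filter_eq_empty_iff]
      intro π _ h
      exact h (cov_empty _ _)
    rw [this, card_empty, zero_mul]
    exact Nat.zero_le _
  rcases lt_or_ge N (2 * (6 * k)) with hN | hN
  · have hV1 : 1 ≤ Fintype.card V := Fintype.card_pos
    have h1 : (univ.filter fun π : E → Equiv.Perm (Fin N) =>
        ¬ Cov (lift src tgt π) (k + 1)).card ≤ Fintype.card (E → Equiv.Perm (Fin N)) :=
      card_le_univ _
    have h2 : N ≤ 72 * k ^ 4 * Fintype.card V := by
      have h3 : k ≤ k ^ 4 := Nat.le_self_pow (by norm_num) k
      have h4 : 72 * k ^ 4 ≤ 72 * k ^ 4 * Fintype.card V := Nat.le_mul_of_pos_right _ hV1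
      omega
    calc _ ≤ Fintype.card (E → Equiv.Perm (Fin N)) * (72 * k ^ 4 * Fintype.card V) :=
          Nat.mul_le_mul h1 h2
      _ = _ := mul_comm _ _
  obtain ⟨σ, c, t, hσ, hinj⟩ := multi_decomp src tgt k hdeg
  set P := Equiv.Perm (Fin N) with hP
  let ι : E → Fin k × V := fun e => (c e, if t e then src e else tgt e)
  have hι : Injective ι := hinj
  let Rest : Type := {x : Fin k × V // x ∉ Set.range ι}
  have : Fintype Rest := Fintype.ofFinite _
  let Φ : (E → P) × (Rest → P) → (Fin k → V → P) := fun a i v =>
    if h : ∃ e, ι e = (i, v) then (if t h.choose then a.1 h.choose else (a.1 h.choose)⁻¹)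
    else a.2 ⟨(i, v), h⟩
  have hΦ1 : ∀ a e, Φ a (ι e).1 (ι e).2 = if t e then a.1 e else (a.1 e)⁻¹ := by
    intro a e
    have h : ∃ e', ι e' = ((ι e).1, (ι e).2) := ⟨e, rfl⟩
    have h2 : h.choose = e := hι h.choose_spec
    change (if h : ∃ e', ι e' = ((ι e).1, (ι e).2) then _ else _) = _
    rw [dif_pos h, h2]
  have hΦ2 : ∀ a (x : Rest), Φ a x.1.1 x.1.2 = a.2 x := by
    intro a x
    have h : ¬ ∃ e', ι e' = (x.1.1, x.1.2) := x.2
    change (if h : ∃ e', ι e' = (x.1.1, x.1.2) then _ else _) = _
    rw [dif_neg h]
  have hΦinj : Injective Φ := by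
    intro a b hab
    refine Prod.ext ?_ ?_
    · funext e
      have h1 := hΦ1 a e
      rw [hab, hΦ1 b e] at h1
      by_cases ht : t e = true
      · rw [if_pos ht, if_pos ht] at h1
        exact h1.symm
      · rw [if_neg ht, if_neg ht] at h1
        exact (inv_injective h1).symm
    · funext x
      rw [← hΦ2 a x, hab, hΦ2 b x]
  set S := univ.filter fun π : E → P => ¬ Cov (lift src tgt π) (k + 1) with hS
  set B := univ.filter fun π : Fin k → V → P => Bad σ (6 * k) π with hB
  have hSB : S.card * Fintype.card (Rest → P) ≤ B.card := by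
    rw [← card_univ (α := Rest → P), ← card_product]
    refine card_le_card_of_injOn Φ ?_ hΦinj.injOn
    rintro ⟨π, ρ⟩ h
    rw [mem_coe, mem_product, hS, mem_filter] at h
    rw [mem_coe, hB, mem_filter]
    refine ⟨mem_univ _, ?_⟩
    by_contra hbad
    refine h.1.2 (cov_sub (cov_of_not_bad hk σ _ hbad) ?_)
    rintro x y ⟨hne, e, he⟩
    rw [iSup_adj]
    refine ⟨c e, hne, ?_⟩
    have hΦe := hΦ1 (π, ρ) e
    have hσe := hσ e
    by_cases ht : t e = true
    · have hιe : ι e = (c e, src e) := by
        change (c e, if t e then src e else tgt e) = _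
        rw [if_pos ht]
      rw [hιe, if_pos ht] at hΦe
      rw [if_pos ht, if_pos ht] at hσe
      rcases he with ⟨h1, h2, h3⟩ | ⟨h1, h2, h3⟩
      · left
        rw [tau_apply]
        refine Prod.ext ?_ ?_
        · rw [← h1, hσe, h2]
        · change Φ (π, ρ) (c e) x.1 x.2 = y.2
          rw [← h1, hΦe]
          exact h3
      · right
        rw [tau_apply]
        refine Prod.ext ?_ ?_
        · rw [← h1, hσe, h2]
        · change Φ (π, ρ) (c e) y.1 y.2 = x.2
          rw [← h1, hΦe]
          exact h3
    · have hιe : ι e = (c e, tgt e) := by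
        change (c e, if t e then src e else tgt e) = _
        rw [if_neg ht]
      rw [hιe, if_neg ht] at hΦe
      rw [if_neg ht, if_neg ht] at hσe
      rcases he with ⟨h1, h2, h3⟩ | ⟨h1, h2, h3⟩
      · right
        rw [tau_apply]
        refine Prod.ext ?_ ?_
        · rw [← h2, hσe, h1]
        · change Φ (π, ρ) (c e) y.1 y.2 = x.2
          rw [← h2, hΦe]
          change (π e)⁻¹ y.2 = x.2
          rw [← h3]
          exact Equiv.symm_apply_apply (π e) _
      · left
        rw [tau_apply]
        refine Prod.ext ?_ ?_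
        · rw [← h2, hσe, h1]
        · change Φ (π, ρ) (c e) x.1 x.2 = y.2
          rw [← h2, hΦe]
          change (π e)⁻¹ x.2 = y.2
          rw [← h3]
          exact Equiv.symm_apply_apply (π e) _
  have hT : Fintype.card (Fin k → V → P) = Fintype.card (E → P) * Fintype.card (Rest → P) := by
    have h1 : Fintype.card E + Fintype.card Rest = Fintype.card (Fin k × V) := by
      have h2 : Fintype.card Rest = Fintype.card (Fin k × V) -
          Fintype.card {x : Fin k × V // x ∈ Set.range ι} := Fintype.card_subtype_compl _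
      have h3 : Fintype.card {x : Fin k × V // x ∈ Set.range ι} = Fintype.card E :=
        Set.card_range_of_injective hι
      have h4 : Fintype.card E ≤ Fintype.card (Fin k × V) := Fintype.card_le_of_injective ι hι
      omega
    have h5 : Fintype.card (Fin k → V → P) = Fintype.card (Fin k × V → P) :=
      Fintype.card_congr (Equiv.curry _ _ _).symm
    rw [h5, Fintype.card_fun, Fintype.card_fun, Fintype.card_fun, ← h1, pow_add]
  have hbad := card_bad (N := N) σ (L := 6 * k) hN
  have hpos : 0 < Fintype.card (Rest → P) := Fintype.card_pos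
  have hfin : S.card * N * (2 * Fintype.card (Rest → P)) ≤
      72 * k ^ 4 * Fintype.card V * Fintype.card (E → P) * (2 * Fintype.card (Rest → P)) := by
    calc S.card * N * (2 * Fintype.card (Rest → P)) =
          2 * (S.card * Fintype.card (Rest → P) * N) := by ring
      _ ≤ 2 * (B.card * N) := Nat.mul_le_mul_left _ (Nat.mul_le_mul_right _ hSB)
      _ ≤ k ^ 2 * Fintype.card V * (2 * (6 * k)) ^ 2 * Fintype.card (Fin k → V → P) := hbad
      _ = 72 * k ^ 4 * Fintype.card V * Fintype.card (E → P) *
          (2 * Fintype.card (Rest → P)) := by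
          rw [hT]
          ring
  exact Nat.le_of_mul_le_mul_right hfin (by omega)

end Pool.Agent.N226.LL
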