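import Mathlib

/-!
# Short cycles in random lifts of a permutation

`tau σ π` is the permutation `(v, x) ↦ (σ v, π v x)` of `V × Fin N`. For a fixed point `p` the
proportion of the `π` for which `p` is on a cycle of length `t` is at most `1 / (N - t)`.
-/

set_option autoImplicit false

namespace Pool.Agent.N226.LL

open Finset Function

variable {V : Type} {N : ℕ}

/-- The lift of the permutation `σ`. -/
def tau (σ : Equiv.Perm V) (π : V → Equiv.Perm (Fin N)) : Equiv.Perm (V × Fin N) where
  toFun p := (σ p.1, π p.1 p.2)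
  invFun q := (σ.symm q.1, (π (σ.symm q.1)).symm q.2)
  left_inv p := by simp
  right_inv q := by simp

@[simp] theorem tau_apply (σ : Equiv.Perm V) (π : V → Equiv.Perm (Fin N)) (p : V × Fin N) :
    tau σ π p = (σ p.1, π p.1 p.2) := rfl

section

variable [DecidableEq V]

/-- The lift in which the cycle through `p₀` is opened at the end. -/
def opened (σ : Equiv.Perm V) (p₀ : V × Fin N) (π : V → Equiv.Perm (Fin N)) (y : Fin N) :
    V → Equiv.Perm (Fin N) :=
  Function.update π (σ.symm p₀.1) (Equiv.swap p₀.2 y * π (σ.symm p₀.1))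

theorem opened_iter (σ : Equiv.Perm V) (p₀ : V × Fin N) (π : V → Equiv.Perm (Fin N)) (y : Fin N)
    {t : ℕ} (hper : ∀ s, 0 < s → s < t → (tau σ π)^[s] p₀ ≠ p₀)
    (hy : ∀ s, s < t → (tau σ π)^[s] p₀ ≠ (p₀.1, y)) :
    ∀ s, s < t → (tau σ (opened σ p₀ π y))^[s] p₀ = (tau σ π)^[s] p₀ := by
  intro s
  induction s with
  | zero => intro _; rfl
  | succ s ih =>
    intro hs
    rw [iterate_succ_apply', iterate_succ_apply', ih (by omega)]
    set x := (tau σ π)^[s] p₀ with hx
    have h1 : tau σ π x ≠ p₀ := by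
      have := hper (s + 1) (by omega) hs
      rwa [iterate_succ_apply'] at this
    have h2 : tau σ π x ≠ (p₀.1, y) := by
      have := hy (s + 1) hs
      rwa [iterate_succ_apply'] at this
    rw [tau_apply, tau_apply]
    refine Prod.ext rfl ?_
    change opened σ p₀ π y x.1 x.2 = π x.1 x.2
    unfold opened
    by_cases h : x.1 = σ.symm p₀.1
    · rw [h, Function.update_self, Equiv.Perm.mul_apply]
      have hσ : σ x.1 = p₀.1 := by rw [h, Equiv.apply_symm_apply]
      refine Equiv.swap_apply_of_ne_of_ne ?_ ?_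
      · intro h3
        apply h1
        rw [tau_apply]
        refine Prod.ext hσ ?_
        rw [h]
        exact h3
      · intro h3
        apply h2
        rw [tau_apply]
        refine Prod.ext hσ ?_
        rw [h]
        exact h3
    · rw [Function.update_of_ne h]

theorem opened_last (σ : Equiv.Perm V) (p₀ : V × Fin N) (π : V → Equiv.Perm (Fin N)) (y : Fin N)
    {t : ℕ} (ht : 0 < t) (hper : ∀ s, 0 < s → s < t → (tau σ π)^[s] p₀ ≠ p₀)
    (hclose : (tau σ π)^[t] p₀ = p₀)
    (hy : ∀ s, s < t → (tau σ π)^[s] p₀ ≠ (p₀.1, y)) :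
    (tau σ (opened σ p₀ π y))^[t] p₀ = (p₀.1, y) := by
  obtain ⟨s, rfl⟩ : ∃ s, t = s + 1 := ⟨t - 1, by omega⟩
  rw [iterate_succ_apply', opened_iter σ p₀ π y hper hy s (by omega)]
  set x := (tau σ π)^[s] p₀ with hx
  rw [iterate_succ_apply', ← hx, tau_apply] at hclose
  have h1 : σ x.1 = p₀.1 := congrArg Prod.fst hclose
  have h2 : π x.1 x.2 = p₀.2 := congrArg Prod.snd hclose
  have h3 : x.1 = σ.symm p₀.1 := by rw [← h1, Equiv.symm_apply_apply]
  rw [tau_apply]
  refine Prod.ext h1 ?_
  change opened σ p₀ π y x.1 x.2 = y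
  unfold opened
  rw [h3] at h2 ⊢
  rw [Function.update_self, Equiv.Perm.mul_apply, h2, Equiv.swap_apply_left]

theorem opened_inj (σ : Equiv.Perm V) (p₀ : V × Fin N) {π π' : V → Equiv.Perm (Fin N)} {y : Fin N}
    (h : opened σ p₀ π y = opened σ p₀ π' y) : π = π' := by
  funext v
  by_cases hv : v = σ.symm p₀.1
  · have h1 := congrFun h (σ.symm p₀.1)
    unfold opened at h1
    rw [Function.update_self, Function.update_self] at h1
    rw [hv]
    exact mul_left_cancel h1
  · have h1 := congrFun h v
    unfold opened at h1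
    rwa [Function.update_of_ne hv, Function.update_of_ne hv] at h1

open Classical in
/-- The number of lifts for which `p₀` is on a cycle of length `t`. -/
theorem card_period [Fintype V] (σ : Equiv.Perm V) (p₀ : V × Fin N) {t : ℕ} (ht : 0 < t) :
    (univ.filter fun π : V → Equiv.Perm (Fin N) => minimalPeriod (tau σ π) p₀ = t).card * (N - t) ≤
      Fintype.card (V → Equiv.Perm (Fin N)) := by
  set B := univ.filter fun π : V → Equiv.Perm (Fin N) => minimalPeriod (tau σ π) p₀ = t with hB
  let Y : (V → Equiv.Perm (Fin N)) → Finset (Fin N) := fun π =>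
    univ.filter fun y => ∀ s, s < t → (tau σ π)^[s] p₀ ≠ (p₀.1, y)
  have hY : ∀ π, N - t ≤ (Y π).card := by
    intro π
    have h1 : univ \ (Y π) ⊆ (range t).image fun s => ((tau σ π)^[s] p₀).2 := by
      intro y hy
      rw [mem_sdiff, mem_filter] at hy
      have h2 := hy.2
      push Not at h2
      obtain ⟨s, hs, h3⟩ := h2 (mem_univ _)
      rw [mem_image]
      exact ⟨s, mem_range.mpr hs, by rw [h3]⟩
    have h2 := (card_le_card h1).trans card_image_le
    rw [card_range, card_sdiff, card_univ, Fintype.card_fin, inter_univ] at h2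
    omega
  have hmem : ∀ π ∈ B, (∀ s, 0 < s → s < t → (tau σ π)^[s] p₀ ≠ p₀) ∧
      (tau σ π)^[t] p₀ = p₀ := by
    intro π hπ
    rw [hB, mem_filter] at hπ
    constructor
    · intro s hs hst h
      have : IsPeriodicPt (tau σ π) s p₀ := h
      have h2 := this.minimalPeriod_le hs
      omega
    · rw [← hπ.2]
      exact isPeriodicPt_minimalPeriod _ _
  calc B.card * (N - t) = ∑ π ∈ B, (N - t) := by rw [sum_const, smul_eq_mul]
    _ ≤ ∑ π ∈ B, (Y π).card := sum_le_sum fun π _ => hY π
    _ = (B.sigma Y).card := (card_sigma _ _).symm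
    _ ≤ (univ : Finset (V → Equiv.Perm (Fin N))).card := by
        refine card_le_card_of_injOn (fun a => opened σ p₀ a.1 a.2) (fun _ _ => mem_univ _) ?_
        rintro ⟨π, y⟩ h ⟨π', y'⟩ h' heq
        rw [mem_coe, mem_sigma] at h h'
        obtain ⟨h1, h2⟩ := h
        obtain ⟨h1', h2'⟩ := h'
        have e1 := opened_last σ p₀ π y ht (hmem π h1).1 (hmem π h1).2 (mem_filter.mp h2).2
        have e2 := opened_last σ p₀ π' y' ht (hmem π' h1').1 (hmem π' h1').2 (mem_filter.mp h2').2
        change opened σ p₀ π y = opened σ p₀ π' y' at heq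
        rw [heq, e2] at e1
        have hyy : y' = y := congrArg Prod.snd e1
        subst hyy
        have := opened_inj σ p₀ heq
        subst this
        rfl
    _ = Fintype.card (V → Equiv.Perm (Fin N)) := card_univ

open Classical in
/-- The number of lifts for which `p₀` is on a cycle of length less than `L`. -/
theorem card_short [Fintype V] (σ : Equiv.Perm V) (p₀ : V × Fin N) {L : ℕ} (hL : 2 * L ≤ N) :
    (univ.filter fun π : V → Equiv.Perm (Fin N) => minimalPeriod (tau σ π) p₀ < L).card * N ≤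
      2 * L * Fintype.card (V → Equiv.Perm (Fin N)) := by
  have hpos : ∀ π : V → Equiv.Perm (Fin N), 0 < minimalPeriod (tau σ π) p₀ := fun π =>
    minimalPeriod_pos_of_mem_periodicPts
      ((tau σ π).injective.mem_periodicPts p₀)
  have hsub : (univ.filter fun π : V → Equiv.Perm (Fin N) => minimalPeriod (tau σ π) p₀ < L) ⊆
      (range L).biUnion fun t => univ.filter fun π : V → Equiv.Perm (Fin N) =>
        0 < t ∧ minimalPeriod (tau σ π) p₀ = t := by
    intro π hπ
    rw [mem_filter] at hπ
    rw [mem_biUnion]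
    exact ⟨_, mem_range.mpr hπ.2, mem_filter.mpr ⟨mem_univ _, hpos π, rfl⟩⟩
  have h1 : ∀ t ∈ range L, (univ.filter fun π : V → Equiv.Perm (Fin N) =>
      0 < t ∧ minimalPeriod (tau σ π) p₀ = t).card * N ≤
        2 * Fintype.card (V → Equiv.Perm (Fin N)) := by
    intro t ht
    rw [mem_range] at ht
    rcases Nat.eq_zero_or_pos t with h0 | h0
    · subst h0
      simp
    · have h2 := card_period σ p₀ h0
      have h3 : (univ.filter fun π : V → Equiv.Perm (Fin N) =>
          0 < t ∧ minimalPeriod (tau σ π) p₀ = t) =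
          univ.filter fun π : V → Equiv.Perm (Fin N) => minimalPeriod (tau σ π) p₀ = t :=
        filter_congr fun π _ => by simp [h0]
      rw [h3]
      have h4 : N ≤ 2 * (N - t) := by omega
      calc _ ≤ (univ.filter fun π : V → Equiv.Perm (Fin N) =>
            minimalPeriod (tau σ π) p₀ = t).card * (2 * (N - t)) := Nat.mul_le_mul_left _ h4
        _ = 2 * ((univ.filter fun π : V → Equiv.Perm (Fin N) =>
            minimalPeriod (tau σ π) p₀ = t).card * (N - t)) := by ring
        _ ≤ _ := Nat.mul_le_mul_left _ h2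
  calc _ ≤ (∑ t ∈ range L, (univ.filter fun π : V → Equiv.Perm (Fin N) =>
        0 < t ∧ minimalPeriod (tau σ π) p₀ = t).card) * N :=
        Nat.mul_le_mul_right _ ((card_le_card hsub).trans card_biUnion_le)
    _ = ∑ t ∈ range L, (univ.filter fun π : V → Equiv.Perm (Fin N) =>
        0 < t ∧ minimalPeriod (tau σ π) p₀ = t).card * N := sum_mul _ _ _
    _ ≤ ∑ t ∈ range L, 2 * Fintype.card (V → Equiv.Perm (Fin N)) := sum_le_sum h1
    _ = 2 * L * Fintype.card (V → Equiv.Perm (Fin N)) := by
        rw [sum_const, card_range, smul_eq_mul]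
        ring

open Classical in
/-- The number of `k`-tuples of lifts for which `p₀` is on two short cycles. -/
theorem card_two [Fintype V] {k : ℕ} (σ : Fin k → Equiv.Perm V) (p₀ : V × Fin N) {L : ℕ}
    (hL : 2 * L ≤ N) (i j : Fin k) (hij : i ≠ j) :
    (univ.filter fun π : Fin k → V → Equiv.Perm (Fin N) =>
      minimalPeriod (tau (σ i) (π i)) p₀ < L ∧ minimalPeriod (tau (σ j) (π j)) p₀ < L).card * N ^ 2 ≤
      (2 * L) ^ 2 * Fintype.card (Fin k → V → Equiv.Perm (Fin N)) := by
  let S : Fin k → Finset (V → Equiv.Perm (Fin N)) := fun l =>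
    if l = i ∨ l = j then
      univ.filter fun π : V → Equiv.Perm (Fin N) => minimalPeriod (tau (σ l) π) p₀ < L
    else univ
  have hS : (univ.filter fun π : Fin k → V → Equiv.Perm (Fin N) =>
      minimalPeriod (tau (σ i) (π i)) p₀ < L ∧ minimalPeriod (tau (σ j) (π j)) p₀ < L) =
      Fintype.piFinset S := by
    ext π
    rw [mem_filter, Fintype.mem_piFinset]
    constructor
    · rintro ⟨-, h1, h2⟩ l
      change π l ∈ if l = i ∨ l = j then _ else _
      split_ifs with h
      · rw [mem_filter]
        rcases h with rfl | rfl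
        · exact ⟨mem_univ _, h1⟩
        · exact ⟨mem_univ _, h2⟩
      · exact mem_univ _
    · intro h
      have h1 : π i ∈ if i = i ∨ i = j then _ else _ := h i
      have h2 : π j ∈ if j = i ∨ j = j then _ else _ := h j
      rw [if_pos (Or.inl rfl), mem_filter] at h1
      rw [if_pos (Or.inr rfl), mem_filter] at h2
      exact ⟨mem_univ _, h1.2, h2.2⟩
  rw [hS, Fintype.card_piFinset]
  have e1 : (N ^ 2 : ℕ) = ∏ l : Fin k, if l = i ∨ l = j then N else 1 := by
    rw [prod_ite, prod_const, prod_const_one, mul_one]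
    congr 1
    have : (univ.filter fun l : Fin k => l = i ∨ l = j) = {i, j} := by
      ext l
      simp
    rw [this, card_pair hij]
  have e2 : ((2 * L) ^ 2 : ℕ) = ∏ l : Fin k, if l = i ∨ l = j then 2 * L else 1 := by
    rw [prod_ite, prod_const, prod_const_one, mul_one]
    congr 1
    have : (univ.filter fun l : Fin k => l = i ∨ l = j) = {i, j} := by
      ext l
      simp
    rw [this, card_pair hij]
  rw [e1, e2, Fintype.card_pi, ← prod_mul_distrib, ← prod_mul_distrib]
  refine prod_le_prod (fun _ _ => Nat.zero_le _) fun l _ => ?_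
  by_cases h : l = i ∨ l = j
  · have : S l = univ.filter fun π : V → Equiv.Perm (Fin N) =>
        minimalPeriod (tau (σ l) π) p₀ < L := if_pos h
    rw [this, if_pos h, if_pos h]
    exact card_short (σ l) p₀ hL
  · have : S l = univ := if_neg h
    rw [this, if_neg h, if_neg h, card_univ]
    simp

/-- The bad tuples of lifts: some point is on two short cycles. -/
def Bad {k : ℕ} (σ : Fin k → Equiv.Perm V) (L : ℕ) (π : Fin k → V → Equiv.Perm (Fin N)) : Prop :=
  ∃ i j : Fin k, i < j ∧ ∃ p : V × Fin N,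
    minimalPeriod (tau (σ i) (π i)) p < L ∧ minimalPeriod (tau (σ j) (π j)) p < L

open Classical in
theorem card_bad [Fintype V] {k : ℕ} (σ : Fin k → Equiv.Perm V) {L : ℕ} (hL : 2 * L ≤ N) :
    2 * ((univ.filter fun π : Fin k → V → Equiv.Perm (Fin N) => Bad σ L π).card * N) ≤
      k ^ 2 * Fintype.card V * (2 * L) ^ 2 * Fintype.card (Fin k → V → Equiv.Perm (Fin N)) := by
  rcases Nat.eq_zero_or_pos N with hN | hN
  · rw [hN, mul_zero, mul_zero]
    exact Nat.zero_le _
  set T := Fintype.card (Fin k → V → Equiv.Perm (Fin N)) with hT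
  set P : Finset (Fin k × Fin k) := univ.filter fun a => a.1 < a.2 with hP
  have hPc : 2 * P.card ≤ k ^ 2 := by
    have h1 : P.card + (univ.filter fun a : Fin k × Fin k => a.2 < a.1).card ≤ k ^ 2 := by
      rw [← card_union_of_disjoint]
      · refine (card_le_univ _).trans ?_
        rw [Fintype.card_prod, Fintype.card_fin, sq]
      · rw [disjoint_left]
        intro a ha hb
        rw [hP, mem_filter] at ha
        rw [mem_filter] at hb
        exact absurd ha.2 (not_lt.mpr hb.2.le)
    have h2 : (univ.filter fun a : Fin k × Fin k => a.2 < a.1).card = P.card := by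
      refine card_bij (fun a _ => (a.2, a.1)) ?_ ?_ ?_
      · intro a ha
        rw [mem_filter] at ha
        rw [hP, mem_filter]
        exact ⟨mem_univ _, ha.2⟩
      · rintro ⟨a, b⟩ _ ⟨c, d⟩ _ h
        rw [Prod.mk.injEq] at h ⊢
        exact ⟨h.2, h.1⟩
      · rintro ⟨a, b⟩ hb
        rw [hP, mem_filter] at hb
        exact ⟨(b, a), mem_filter.mpr ⟨mem_univ _, hb.2⟩, rfl⟩
    omega
  have hsub : (univ.filter fun π : Fin k → V → Equiv.Perm (Fin N) => Bad σ L π) ⊆
      (P ×ˢ (univ : Finset (V × Fin N))).biUnion fun b =>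
        univ.filter fun π : Fin k → V → Equiv.Perm (Fin N) =>
          minimalPeriod (tau (σ b.1.1) (π b.1.1)) b.2 < L ∧
            minimalPeriod (tau (σ b.1.2) (π b.1.2)) b.2 < L := by
    intro π hπ
    rw [mem_filter] at hπ
    obtain ⟨-, i, j, hij, p, h1, h2⟩ := hπ
    rw [mem_biUnion]
    exact ⟨((i, j), p), mem_product.mpr ⟨mem_filter.mpr ⟨mem_univ _, hij⟩, mem_univ _⟩,
      mem_filter.mpr ⟨mem_univ _, h1, h2⟩⟩
  have h1 : (univ.filter fun π : Fin k → V → Equiv.Perm (Fin N) => Bad σ L π).card * N ^ 2 ≤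
      P.card * (Fintype.card V * N) * ((2 * L) ^ 2 * T) := by
    calc _ ≤ (∑ b ∈ P ×ˢ (univ : Finset (V × Fin N)),
          (univ.filter fun π : Fin k → V → Equiv.Perm (Fin N) =>
            minimalPeriod (tau (σ b.1.1) (π b.1.1)) b.2 < L ∧
              minimalPeriod (tau (σ b.1.2) (π b.1.2)) b.2 < L).card) * N ^ 2 :=
          Nat.mul_le_mul_right _ ((card_le_card hsub).trans card_biUnion_le)
      _ = ∑ b ∈ P ×ˢ (univ : Finset (V × Fin N)),
          (univ.filter fun π : Fin k → V → Equiv.Perm (Fin N) =>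
            minimalPeriod (tau (σ b.1.1) (π b.1.1)) b.2 < L ∧
              minimalPeriod (tau (σ b.1.2) (π b.1.2)) b.2 < L).card * N ^ 2 := sum_mul _ _ _
      _ ≤ ∑ b ∈ P ×ˢ (univ : Finset (V × Fin N)), (2 * L) ^ 2 * T := by
          refine sum_le_sum fun b hb => ?_
          rw [mem_product, hP, mem_filter] at hb
          exact card_two σ b.2 hL b.1.1 b.1.2 (ne_of_lt hb.1.2)
      _ = P.card * (Fintype.card V * N) * ((2 * L) ^ 2 * T) := by
          rw [sum_const, smul_eq_mul, card_product, card_univ, Fintype.card_prod, Fintype.card_fin]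
  have h2 : (2 * ((univ.filter fun π : Fin k → V → Equiv.Perm (Fin N) =>
      Bad σ L π).card * N)) * N ≤ (k ^ 2 * Fintype.card V * (2 * L) ^ 2 * T) * N := by
    calc _ = 2 * ((univ.filter fun π : Fin k → V → Equiv.Perm (Fin N) =>
          Bad σ L π).card * N ^ 2) := by ring
      _ ≤ 2 * (P.card * (Fintype.card V * N) * ((2 * L) ^ 2 * T)) := Nat.mul_le_mul_left _ h1
      _ = 2 * P.card * (Fintype.card V * N * ((2 * L) ^ 2 * T)) := by ring
      _ ≤ k ^ 2 * (Fintype.card V * N * ((2 * L) ^ 2 * T)) := Nat.mul_le_mul_right _ hPc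
      _ = _ := by ring
  exact Nat.le_of_mul_le_mul_right h2 hN

end

end Pool.Agent.N226.LL
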