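import Pool.Agent.N226.LL.Det

/-!
# Graphs in which small sets of vertices span few edges
-/

set_option autoImplicit false

namespace Pool.Agent.N226.LL

open Finset Function SimpleGraph H931R3.LA Pool.Agent.W111.LAR

/-- The load criterion if no vertex is on two short cycles of the decomposition. -/
theorem cov_two {W : Type} [Finite W] {k : ℕ} (hk : 0 < k) (H : Fin k → SimpleGraph W)
    (hdeg : ∀ i v, ((H i).neighborSet v).ncard ≤ 2)
    (h : ∀ v i j, i ≠ j → Cyc (H i) v → Cyc (H j) v → csize (H i) v < 6 * k →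
      csize (H j) v < 6 * k → False) : Cov (⨆ i, H i) (k + 1) := by
  classical
  have h0 := cov_of_load H hdeg (by
    intro p
    have hk' : (0 : ℝ) < k := by exact_mod_cast hk
    have hlong : ∀ i : Fin k, (Cyc (H i) p → 6 * k ≤ csize (H i) p) →
        (if Cyc (H i) p then (2 : ℝ) / csize (H i) p else 0) ≤ 1 / (3 * k) := by
      intro i hi
      split_ifs with hc
      · have h1 : (6 * k : ℝ) ≤ csize (H i) p := by exact_mod_cast hi hc
        rw [div_le_div_iff₀ (by linarith) (by positivity)]
        linarith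
      · positivity
    have hany : ∀ i : Fin k, (if Cyc (H i) p then (2 : ℝ) / csize (H i) p else 0) ≤ 2 / 3 := by
      intro i
      split_ifs with hc
      · have h1 : (3 : ℝ) ≤ csize (H i) p := by exact_mod_cast csize_three hc
        rw [div_le_div_iff₀ (by linarith) (by norm_num)]
        linarith
      · norm_num
    by_cases hs : ∃ i₀ : Fin k, Cyc (H i₀) p ∧ csize (H i₀) p < 6 * k
    · obtain ⟨i₀, hc₀, hi₀⟩ := hs
      have hterm : ∀ i : Fin k, (if Cyc (H i) p then (2 : ℝ) / csize (H i) p else 0) ≤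
          (if i = i₀ then 2 / 3 else 0) + 1 / (3 * k) := by
        intro i
        by_cases hi : i = i₀
        · rw [if_pos hi]
          have := hany i
          have h2 : (0 : ℝ) ≤ 1 / (3 * k) := by positivity
          linarith
        · rw [if_neg hi, zero_add]
          refine hlong i fun hc => ?_
          by_contra hlt
          push Not at hlt
          exact h p i i₀ hi hc hc₀ hlt hi₀
      refine (sum_le_sum fun i _ => hterm i).trans ?_
      rw [sum_add_distrib, sum_ite_eq' univ i₀, if_pos (mem_univ _), sum_const, card_univ,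
        Fintype.card_fin, nsmul_eq_mul]
      have : (k : ℝ) * (1 / (3 * k)) = 1 / 3 := by
        field_simp
      rw [this]
      norm_num
    · push Not at hs
      refine (sum_le_sum fun i _ => hlong i (hs i)).trans ?_
      rw [sum_const, card_univ, Fintype.card_fin, nsmul_eq_mul]
      have : (k : ℝ) * (1 / (3 * k)) = 1 / 3 := by
        field_simp
      rw [this]
      norm_num)
  rwa [Fintype.card_fin] at h0

/-- Decompositions can be made edge disjoint. -/
theorem decomp_disj {V : Type} [Finite V] (G : SimpleGraph V) (k : ℕ)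
    (hdeg : ∀ v, (G.neighborSet v).ncard ≤ 2 * k) :
    ∃ H : Fin k → SimpleGraph V, (∀ i v, ((H i).neighborSet v).ncard ≤ 2) ∧
      (⨆ i, H i) = G ∧ ∀ i j, i ≠ j → ∀ x y, (H i).Adj x y → ¬ (H j).Adj x y := by
  classical
  obtain ⟨H, hH, hG⟩ := decomp G k hdeg
  let H' : Fin k → SimpleGraph V := fun i =>
    { Adj := fun x y => (H i).Adj x y ∧ ∀ j < i, ¬ (H j).Adj x y
      symm.symm := fun x y h => ⟨h.1.symm, fun j hj hc => h.2 j hj hc.symm⟩
      loopless.irrefl := fun x h => (H i).loopless.irrefl x h.1 }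
  refine ⟨H', fun i v => ?_, ?_, ?_⟩
  · refine (Set.ncard_le_ncard ?_ (Set.toFinite _)).trans (hH i v)
    intro w hw
    exact hw.1
  · refine le_antisymm ?_ ?_
    · rw [← hG]
      exact iSup_mono fun i x y h => h.1
    · intro x y h
      rw [← hG, iSup_adj] at h
      obtain ⟨i, hi⟩ := h
      have hne : (univ.filter fun i => (H i).Adj x y).Nonempty := ⟨i, by simpa using hi⟩
      rw [iSup_adj]
      refine ⟨(univ.filter fun i => (H i).Adj x y).min' hne, ?_, ?_⟩
      · exact (mem_filter.1 (min'_mem _ hne)).2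
      · intro j hj hc
        exact absurd (min'_le (univ.filter fun i => (H i).Adj x y) j (by simpa using hc))
          (not_le.2 hj)
  · intro i j hij x y hx hy
    rcases lt_or_gt_of_ne hij with h | h
    · exact hy.2 i h hx.1
    · exact hx.2 j h hy.1

theorem card_darts {V : Type} [Fintype V] {H : SimpleGraph V} {v : V} (hc : Cyc H v) :
    {p : V × V | H.Reachable v p.1 ∧ H.Adj p.1 p.2}.ncard = 2 * csize H v := by
  classical
  unfold csize
  rw [Set.ncard_eq_toFinset_card', Set.ncard_eq_toFinset_card', Set.toFinset_ofPred,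
    Set.toFinset_ofPred]
  have h1 : (univ.filter fun p : V × V => H.Reachable v p.1 ∧ H.Adj p.1 p.2).card =
      ∑ x ∈ univ.filter (fun w => H.Reachable v w), (univ.filter fun y => H.Adj x y).card := by
    simp only [card_filter]
    rw [Fintype.sum_prod_type, sum_filter]
    refine sum_congr rfl fun x _ => ?_
    by_cases hx : H.Reachable v x
    · simp [hx]
    · simp [hx]
  rw [h1]
  have h2 : ∀ x ∈ univ.filter (fun w => H.Reachable v w),
      (univ.filter fun y => H.Adj x y).card = 2 := by
    intro x hx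
    have := hc x (mem_filter.1 hx).2
    rw [Set.ncard_eq_toFinset_card'] at this
    rw [← this]
    congr 1
    ext y
    simp
  rw [sum_congr rfl h2, sum_const, smul_eq_mul, mul_comm]

/-- Graphs of maximum degree at most `2 k` in which every set `S` of at most `12 k` vertices spans
at most `|S|` edges. -/
theorem cov_sparse {V : Type} [Finite V] (G : SimpleGraph V) {k : ℕ} (hk : 0 < k)
    (hdeg : ∀ v, (G.neighborSet v).ncard ≤ 2 * k)
    (hsp : ∀ S : Set V, S.ncard ≤ 12 * k →
      {p : V × V | p.1 ∈ S ∧ p.2 ∈ S ∧ G.Adj p.1 p.2}.ncard ≤ 2 * S.ncard) : Cov G (k + 1) := by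
  classical
  have := Fintype.ofFinite V
  obtain ⟨H, hH, hG, hdis⟩ := decomp_disj G k hdeg
  rw [← hG]
  refine cov_two hk H hH ?_
  intro v i j hij hci hcj hi hj
  set A : Set V := {w | (H i).Reachable v w} with hA
  set B : Set V := {w | (H j).Reachable v w} with hB
  have hAc : A.ncard = csize (H i) v := rfl
  have hBc : B.ncard = csize (H j) v := rfl
  have hvA : v ∈ A ∩ B := ⟨Reachable.refl v, Reachable.refl v⟩
  have hU : (A ∪ B).ncard + (A ∩ B).ncard = A.ncard + B.ncard :=
    Set.ncard_union_add_ncard_inter A B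
  have hI : 0 < (A ∩ B).ncard := (Set.ncard_pos (Set.toFinite _)).2 ⟨v, hvA⟩
  have h1 := hsp (A ∪ B) (by omega)
  have h2 : {p : V × V | (H i).Reachable v p.1 ∧ (H i).Adj p.1 p.2} ∪
      {p : V × V | (H j).Reachable v p.1 ∧ (H j).Adj p.1 p.2} ⊆
      {p : V × V | p.1 ∈ A ∪ B ∧ p.2 ∈ A ∪ B ∧ G.Adj p.1 p.2} := by
    rintro p (⟨hp1, hp2⟩ | ⟨hp1, hp2⟩)
    · refine ⟨Or.inl hp1, Or.inl (hp1.trans hp2.reachable), ?_⟩
      rw [← hG, iSup_adj]
      exact ⟨i, hp2⟩
    · refine ⟨Or.inr hp1, Or.inr (hp1.trans hp2.reachable), ?_⟩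
      rw [← hG, iSup_adj]
      exact ⟨j, hp2⟩
  have h3 := Set.ncard_le_ncard h2 (Set.toFinite _)
  rw [Set.ncard_union_eq (by
    rw [Set.disjoint_left]
    rintro p ⟨-, hp⟩ ⟨-, hq⟩
    exact hdis i j hij _ _ hp hq) (Set.toFinite _) (Set.toFinite _), card_darts hci,
    card_darts hcj] at h3
  omega

end Pool.Agent.N226.LL
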